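import Pool.Agent.H1.RW.Build

/-!
# Subgroups to which the irreducible words return (MP_56d4a1_al)

Let `H` be presented by a finite complete rewriting system `R`, `G` any subgroup of `H` and `V` a
union of `k + 1` right cosets of `G` which contains `G`. Suppose that every nonempty irreducible
word which leads from a point of `V` to a point of `V` is in `V` again after at most `c` letters.
Then `G * F_k` has a finite complete rewriting system; for `k = 0` (returns to `G` itself) `G` has
one.
-/

set_option autoImplicit false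

namespace Pool.Agent.Results.MP_56d4a1_al.BoundedReturns

open H1.RW Monoid

theorem result (H : Type) [Group H] (G : Subgroup H) (n : ℕ)
    (R : List (List (Fin n) × List (Fin n))) (hT : Terminating R) (hC : Confluent R)
    (e : H ≃* (ruleCon R).Quotient) (k c : ℕ) (r : Fin (k + 1) → H) (r0 : r 0 = 1)
    (hr : ∀ x y, r x * (r y)⁻¹ ∈ G → x = y)
    (hret : ∀ x, ∀ w : List (Fin n), w ≠ [] → Irred R w →
      (∃ y, r x * e.symm (cls R w) * (r y)⁻¹ ∈ G) →
        ∃ p s : List (Fin n), p ++ s = w ∧ p ≠ [] ∧ p.length ≤ c ∧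
          ∃ z, r x * e.symm (cls R p) * (r z)⁻¹ ∈ G) :
    HasFCRS (Coprod G (FreeGroup (Fin k))) ∧ (k = 0 → HasFCRS G) := by
  obtain ⟨φ, h2, h3, h4, h5⟩ := data_of_equiv hT hC e
  have hφ : ∀ w : List (Fin n), φ (FreeMonoid.ofList w) = e.symm (cls R w) := fun w => h2 _
  have hmem : ∀ (a b : H), (∃ g : G, a = G.subtype g * b) ↔ a * b⁻¹ ∈ G := by
    intro a b
    constructor
    · rintro ⟨g, rfl⟩
      simp
    · intro h
      exact ⟨⟨_, h⟩, by simp⟩
  obtain ⟨C⟩ := exists_core R hT φ h3 h4 h5 G.subtype G.subtype_injective (0 : Fin (k + 1)) r r0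
    (fun x y g hg => hr x y ((hmem _ _).1 ⟨g, hg⟩)) (by
      refine ((Set.finite_univ (α := Fin (k + 1))).prod
        (List.finite_length_le (Fin n) c)).subset ?_
      rintro ⟨x, w⟩ ⟨hw1, hw2, ⟨y, g, hw3⟩, hw4⟩
      refine ⟨Set.mem_univ _, ?_⟩
      show w.length ≤ c
      obtain ⟨p, s, hps, hp, hpc, z, hz⟩ := hret x w hw1 hw2 ⟨y, by
        rw [← hφ]
        exact (hmem _ _).1 ⟨g, hw3⟩⟩
      rw [← hφ] at hz
      obtain ⟨g', hg'⟩ := (hmem _ _).2 hz
      by_cases hs : s = []
      · rw [hs, List.append_nil] at hps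
        rw [← hps]
        exact hpc
      · exact absurd hg' (hw4 p s hps hp hs z g'))
  have hmain : HasFCRS (Coprod G (FreeGroup (Fin k))) := C.hasFCRS_fin k (by simp)
  refine ⟨hmain, ?_⟩
  rintro rfl
  have e1 : FreeGroup (Fin 0) ≃* PUnit.{1} :=
    { toFun := fun _ => PUnit.unit
      invFun := fun _ => 1
      left_inv := fun x => Subsingleton.elim _ _
      right_inv := fun x => Subsingleton.elim _ _
      map_mul' := fun x y => rfl }
  exact hmain.congr ((MulEquiv.coprodCongr (MulEquiv.refl G) e1).trans (MulEquiv.coprodPUnit G))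

end Pool.Agent.Results.MP_56d4a1_al.BoundedReturns
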