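import Pool.Agent.H1.RW.FreeProd

/-!
# Free factors of groups with finite complete rewriting systems (MP_56d4a1_al)

Let `G * K` be presented by a finite complete rewriting system, and write every letter `a` as a
product `g₀ k₁ g₁ ⋯ kⱼ gⱼ` (`j = j(a)`). Then `G * F` has a finite complete rewriting system for a
free group `F` of some rank `m ≤ ∑ₐ (j(a) - 1)`. In particular (`m = 0`) if all letters lie in
`G K G`, then `G` has a finite complete rewriting system.
-/

set_option autoImplicit false

namespace Pool.Agent.Results.MP_56d4a1_al.FreeFactors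

open H1.RW Monoid

theorem result (G K : Type) [Group G] [Group K] (n : ℕ)
    (R : List (List (Fin n) × List (Fin n))) (hT : Terminating R) (hC : Confluent R)
    (e : Coprod G K ≃* (ruleCon R).Quotient) (g₀ : Fin n → G) (s : Fin n → List (K × G))
    (hs : ∀ a : Fin n,
      e (Coprod.inl (g₀ a) *
        ((s a).map (fun p => (Coprod.inr p.1 * Coprod.inl p.2 : Coprod G K))).prod) =
      ((FreeMonoid.of a : FreeMonoid (Fin n)) : (ruleCon R).Quotient)) :
    ∃ m : ℕ, m ≤ ∑ a : Fin n, ((s a).length - 1) ∧
      HasFCRS (Coprod G (FreeGroup (Fin m))) :=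
  freeFactor G K n R hT hC e g₀ s hs

end Pool.Agent.Results.MP_56d4a1_al.FreeFactors
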