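import Pool.Agent.H47.GF.Main

/-!
# Free factors and equivalence of groupoids (MP_56d4a1_al)

`HasFCRS G`: the group `G` admits a finite complete rewriting system. `GroupoidFCRS G (Fin k)`: the
connected groupoid with `k` objects and vertex group `G` has a finite convergent presentation (a
finite complete system of rules between parallel paths of a finite quiver).

(1) For every group `G`: some free product `G * K` admits a finite complete system iff the groupoid
with `k` objects has one for some `k ≥ 1`; `G` admits one iff the groupoid with one object has one.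
(2) Q1 is true iff a group `G` admits a finite complete system as soon as some connected groupoid
with finitely many objects and vertex group `G` has one.
-/

set_option autoImplicit false

namespace Pool.Agent.Results.MP_56d4a1_al.GroupoidForm

open H1.RW Monoid Pool.Agent.H47.GF

theorem result :
    (∀ (G : Type) [Group G],
      ((∃ (K : Type) (_ : Group K), HasFCRS (Coprod G K)) ↔
        ∃ k : ℕ, GroupoidFCRS G (Fin (k + 1))) ∧
      (HasFCRS G ↔ GroupoidFCRS G (Fin 1))) ∧
    ((∀ (G : Type) [Group G], HasFCRS (Coprod G (Multiplicative ℤ)) → HasFCRS G) ↔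
      ∀ (G : Type) [Group G] (k : ℕ),
        GroupoidFCRS G (Fin (k + 1)) → GroupoidFCRS G (Fin 1)) := by
  refine ⟨fun G _ => ⟨⟨?_, ?_⟩, groupoid_one G, hasFCRS_of_one G⟩, ?_, ?_⟩
  · rintro ⟨K, _, h⟩
    exact groupoid_of_hasFCRS G K h
  · rintro ⟨k, h⟩
    exact ⟨FreeGroup (Fin k), inferInstance, hasFCRS_of_groupoid G k h⟩
  · intro hQ G _ k h
    exact groupoid_one G (descend hQ G k (hasFCRS_of_groupoid G k h))
  · intro hQ G _ h
    obtain ⟨k, hk⟩ := groupoid_of_hasFCRS G (Multiplicative ℤ) h
    exact hasFCRS_of_one G (hQ G k hk)

end Pool.Agent.Results.MP_56d4a1_al.GroupoidForm
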