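import Pool.Agent.H69.RE.Fin

/-!
# Q1 up to finitely many rules anchored at the two ends of the words (MP_56d4a1_al)

Let `G * K` be presented by a finite complete rewriting system. Then `G` is presented by a finite
system `R'` which becomes complete after adding finitely many rules that are applied only at the
beginning (`P`) or only at the end (`S`) of a word; `R'` alone terminates, and every `g ≠ 1` has
exactly `k²` irreducible words, where `k ≤ 1 + ∑ₐ (j(a) - 1)`.
-/

set_option autoImplicit false

namespace Pool.Agent.Results.MP_56d4a1_al.UpToEndRules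

open H1.RW H69.RE Monoid Relation

theorem result (G K : Type) [Group G] [Group K] (n : ℕ)
    (R : List (List (Fin n) × List (Fin n))) (hT : Terminating R) (hC : Confluent R)
    (e : Coprod G K ≃* (ruleCon R).Quotient) (g₀ : Fin n → G) (s : Fin n → List (K × G))
    (hs : ∀ a : Fin n,
      e (Coprod.inl (g₀ a) *
        ((s a).map (fun p => (Coprod.inr p.1 * Coprod.inl p.2 : Coprod G K))).prod) =
      ((FreeMonoid.of a : FreeMonoid (Fin n)) : (ruleCon R).Quotient)) :
    ∃ k m : ℕ, 1 ≤ k ∧ k ≤ 1 + ∑ a : Fin n, ((s a).length - 1) ∧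
      ∃ (R' P S : List (List (Fin m) × List (Fin m))) (f : G ≃* (ruleCon R').Quotient),
        (∀ p ∈ P, p.1.length = 1) ∧ (∀ p ∈ S, p.1.length = 1) ∧ (k = 1 → P = [] ∧ S = []) ∧
        WellFounded (fun v u : List (Fin m) => EndStep R' P S u v) ∧
        (∀ u v : List (Fin m),
          ((FreeMonoid.ofList u : FreeMonoid (Fin m)) : (ruleCon R').Quotient) =
            ((FreeMonoid.ofList v : FreeMonoid (Fin m)) : (ruleCon R').Quotient) ↔
          ∃ z, ReflTransGen (EndStep R' P S) u z ∧ ReflTransGen (EndStep R' P S) v z) ∧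
        (∀ g : G, g ≠ 1 → {u : List (Fin m) | Irred R' u ∧
          ((FreeMonoid.ofList u : FreeMonoid (Fin m)) : (ruleCon R').Quotient) = f g}.ncard =
            k ^ 2) ∧
        {u : List (Fin m) | Irred R' u ∧
          ((FreeMonoid.ofList u : FreeMonoid (Fin m)) : (ruleCon R').Quotient) = f 1}.ncard + k =
            k ^ 2 + 1 :=
  upToEndRules G K n R hT hC e g₀ s hs

end Pool.Agent.Results.MP_56d4a1_al.UpToEndRules
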